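import Pool.Agent.V7H52.PX.E13
import Pool.Agent.V7H52.PX.E19

/-!
# Indivisible plexes with more than `12n/19 - 48` entries per row, for all large orders `n`

For every `g` prime to `6` and every `r` with `1 ≤ r ≤ g - 2` there are a Latin square of order
`19 g + r` that contains an indivisible `12 g`-plex and a Latin square of order `13 g + r` that
contains an indivisible `8 g`-plex. Hence `19 κ(n) ≥ 12 n - 912` for every `n ≥ 1502` and
`13 κ(n) ≥ 8 n - 416` for every `n ≥ 716`.

Method: rows, columns and symbols get labels in `ZMod (12 g)`; the labels of every cell of the plex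
add up to `0` and the sum of all labels is a unit. A coarse square of order `19` is blown up by the
factor `g`; the diagonal blocks are squares of order `g` with `r` disjoint transversals, along which
the blown-up square is prolonged by `r` rows, columns and symbols; on the new lines the plex consists
of cells with label sum `0` of the prolonged transversals.
-/

set_option autoImplicit false

namespace Pool.Agent.Results.MP_185394_co.AllOrdersH52

open Pool.Agent.V7H52.PX

/-- For `g` prime to `6` and `1 ≤ r ≤ g - 2` some Latin square of order `19 g + r` contains an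
indivisible `12 g`-plex and some Latin square of order `13 g + r` contains an indivisible `8 g`-plex;
hence `12 n ≤ 19 κ(n) + 912` for every `n ≥ 1502` and `8 n ≤ 13 κ(n) + 416` for every `n ≥ 716`. -/
theorem result :
    (∀ g r : ℕ, g.Coprime 6 → 1 ≤ r → r + 2 ≤ g →
      (∃ L : Fin (19 * g + r) → Fin (19 * g + r) → Fin (19 * g + r), IsLatin L ∧
        ∃ P, IsIndivisible L (12 * g) P) ∧
      ∃ L : Fin (13 * g + r) → Fin (13 * g + r) → Fin (13 * g + r), IsLatin L ∧
        ∃ P, IsIndivisible L (8 * g) P) ∧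
    (∀ n : ℕ, 1502 ≤ n → 12 * n ≤ 19 * kappa n + 912) ∧
    ∀ n : ℕ, 716 ≤ n → 8 * n ≤ 13 * kappa n + 416 := by
  have c2 : ∀ g : ℕ, g.Coprime 6 → g.Coprime 2 := fun g hg =>
    Nat.Coprime.coprime_dvd_right (by norm_num) hg
  have c3 : ∀ g : ℕ, g.Coprime 6 → g.Coprime 3 := fun g hg =>
    Nat.Coprime.coprime_dvd_right (by norm_num) hg
  have h0 : ∀ g r : ℕ, g.Coprime 6 → 1 ≤ r → r + 2 ≤ g →
      ∃ L : Fin (19 * g + r) → Fin (19 * g + r) → Fin (19 * g + r), IsLatin L ∧
        ∃ P, IsIndivisible L (12 * g) P := by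
    intro g r hg hr hrg
    have hg2 : g.Coprime 12 := by
      have := Nat.Coprime.mul_right (Nat.Coprime.pow_right 2 (c2 g hg)) (c3 g hg)
      norm_num at this
      exact this
    exact E19.data.exists_indivisible E19.total (by decide) g hg hg2 r hr hrg
  have h1 : ∀ g r : ℕ, g.Coprime 6 → 1 ≤ r → r + 2 ≤ g →
      ∃ L : Fin (13 * g + r) → Fin (13 * g + r) → Fin (13 * g + r), IsLatin L ∧
        ∃ P, IsIndivisible L (8 * g) P := by
    intro g r hg hr hrg
    have hg2 : g.Coprime 8 := by
      have := Nat.Coprime.pow_right 3 (c2 g hg)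
      norm_num at this
      exact this
    exact E13.data.exists_indivisible E13.total (by decide) g hg hg2 r hr hrg
  have c6 : ∀ g : ℕ, (g % 6 = 1 ∨ g % 6 = 5) → g.Coprime 6 := by
    intro g h4
    rw [Nat.coprime_comm, Nat.coprime_iff_gcd_eq_one, Nat.gcd_rec]
    rcases h4 with h | h <;> rw [h] <;> rfl
  refine ⟨fun g r hg hr hrg => ⟨h0 g r hg hr hrg, h1 g r hg hr hrg⟩, fun n hn => ?_,
    fun n hn => ?_⟩
  · obtain ⟨g, h2, h3, hg54, h4⟩ : ∃ g, (n - 1) / 19 ≤ g + 3 ∧ g ≤ (n - 1) / 19 ∧ 79 ≤ g ∧
        (g % 6 = 1 ∨ g % 6 = 5) := by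
      have h5 : 79 ≤ (n - 1) / 19 := by omega
      generalize (n - 1) / 19 = x at h5
      rcases (by omega : x % 6 = 0 ∨ x % 6 = 1 ∨ x % 6 = 2 ∨ x % 6 = 3 ∨ x % 6 = 4 ∨ x % 6 = 5)
        with h | h | h | h | h | h
      · exact ⟨x - 1, by omega, by omega, by omega, by omega⟩
      · exact ⟨x, by omega, by omega, by omega, by omega⟩
      · exact ⟨x - 1, by omega, by omega, by omega, by omega⟩
      · exact ⟨x - 2, by omega, by omega, by omega, by omega⟩
      · exact ⟨x - 3, by omega, by omega, by omega, by omega⟩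
      · exact ⟨x, by omega, by omega, by omega, by omega⟩
    obtain ⟨L, hL, P, hP⟩ := h0 g (n - 19 * g) (c6 g h4) (by omega) (by omega)
    have hn' : 19 * g + (n - 19 * g) = n := by omega
    have h6 : 12 * g ≤ kappa n := by
      rw [← hn']
      exact le_kappa (by omega) (by omega) ⟨L, hL, P, hP⟩
    omega
  · obtain ⟨g, h2, h3, hg54, h4⟩ : ∃ g, (n - 1) / 13 ≤ g + 3 ∧ g ≤ (n - 1) / 13 ∧ 55 ≤ g ∧
        (g % 6 = 1 ∨ g % 6 = 5) := by
      have h5 : 55 ≤ (n - 1) / 13 := by omega
      generalize (n - 1) / 13 = x at h5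
      rcases (by omega : x % 6 = 0 ∨ x % 6 = 1 ∨ x % 6 = 2 ∨ x % 6 = 3 ∨ x % 6 = 4 ∨ x % 6 = 5)
        with h | h | h | h | h | h
      · exact ⟨x - 1, by omega, by omega, by omega, by omega⟩
      · exact ⟨x, by omega, by omega, by omega, by omega⟩
      · exact ⟨x - 1, by omega, by omega, by omega, by omega⟩
      · exact ⟨x - 2, by omega, by omega, by omega, by omega⟩
      · exact ⟨x - 3, by omega, by omega, by omega, by omega⟩
      · exact ⟨x, by omega, by omega, by omega, by omega⟩
    obtain ⟨L, hL, P, hP⟩ := h1 g (n - 13 * g) (c6 g h4) (by omega) (by omega)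
    have hn' : 13 * g + (n - 13 * g) = n := by omega
    have h6 : 8 * g ≤ kappa n := by
      rw [← hn']
      exact le_kappa (by omega) (by omega) ⟨L, hL, P, hP⟩
    omega

end Pool.Agent.Results.MP_185394_co.AllOrdersH52
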