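import Pool.Agent.V7H52.PX.D20
import Pool.Agent.V7H52.PX.D24

/-!
# Indivisible plexes in Latin squares of orders `20 g` and `24 g`

For every `g ≥ 1` there is a Latin square of order `24 g` that contains an indivisible `17 g`-plex,
and one of order `20 g` that contains an indivisible `14 g`-plex. So `κ(n) ≥ 17n/24` whenever `24`
divides `n`, and `κ(n) ≥ 7n/10` whenever `20` divides `n`.

Method: two coarse squares of order `24` with zero-sum `17`-plexes for the same column and symbol
labels, whose row labels have sums that differ by `1`, the first total label sum being divisible by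
`17`; one layer of the blow-up uses the second square and all the others the first one.
-/

set_option autoImplicit false

namespace Pool.Agent.Results.MP_185394_co.BlowUpsH52

open Pool.Agent.V7H52.PX

/-- For every `g ≥ 1` some Latin square of order `24 g` contains an indivisible `17 g`-plex and some
Latin square of order `20 g` contains an indivisible `14 g`-plex; hence `κ(24 g) ≥ 17 g` and
`κ(20 g) ≥ 14 g`. -/
theorem result : ∀ g : ℕ, 1 ≤ g →
    ((∃ L : Fin (24 * g) → Fin (24 * g) → Fin (24 * g), IsLatin L ∧
      ∃ P, IsIndivisible L (17 * g) P) ∧ 17 * g ≤ kappa (24 * g)) ∧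
    ((∃ L : Fin (20 * g) → Fin (20 * g) → Fin (20 * g), IsLatin L ∧
      ∃ P, IsIndivisible L (14 * g) P) ∧ 14 * g ≤ kappa (20 * g)) := by
  intro g hg
  have h := exists_indivisible (m := 12) (w := 32) D24.data D24.sumA D24.sumB g hg
  have h' := exists_indivisible (m := 10) (w := 27) D20.data D20.sumA D20.sumB g hg
  exact ⟨⟨h, le_kappa (by omega) (by omega) h⟩, ⟨h', le_kappa (by omega) (by omega) h'⟩⟩

end Pool.Agent.Results.MP_185394_co.BlowUpsH52
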